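import Pool.Agent.U544.RC.Primes
import Pool.Agent.H370R2.DirGood

/-!
# The law at `1/2` with primes only, for all Dirichlet characters
-/

set_option autoImplicit false

namespace Pool.Agent.U544.CB

open Filter Topology Set ComplexConjugate
open Pool.Agent.W187.UR (Lam cmean)
open Pool.Agent.N41.RM
open Pool.Agent.U544.RC (ker err qP lo lo_nonneg law_one vterm mero_one)
open Pool.Agent.U745.RZ (res)

variable {N : ℕ}

theorem inv_app (χ : DirichletCharacter ℂ N) (a : ZMod N) : χ⁻¹ a = conj (χ a) := by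
  rw [← MulChar.star_apply']
  rfl

/-- the parameters -/
noncomputable def a2 (χ : DirichletCharacter ℂ N) (p : Nat.Primes) (j : Fin 2) : ℂ :=
  if j = 0 then χ (p : ℕ) else χ⁻¹ (p : ℕ)

theorem pow_re (χ : DirichletCharacter ℂ N) (p : Nat.Primes) (k : ℕ) :
    ∑ j, a2 χ p j ^ k = ((2 * (χ (p : ℕ) ^ k).re : ℝ) : ℂ) := by
  rw [Fin.sum_univ_two]
  unfold a2
  rw [if_pos rfl, if_neg (by norm_num), inv_app, ← map_pow (starRingEnd ℂ), Complex.add_conj]

theorem eg (χ : DirichletCharacter ℂ N) : EG 0 qP (a2 χ) where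
  two_le v := by
    unfold qP
    exact_mod_cast v.2.two_le
  sum σ hσ := by
    unfold qP
    exact Nat.Primes.summable_rpow.2 (by linarith)
  ha v j := by
    rw [Real.rpow_zero]
    unfold a2
    split_ifs
    · exact χ.norm_le_one _
    · exact (χ⁻¹).norm_le_one _
  real v k := by rw [pow_re, Complex.ofReal_im]

/-- `L(s,χ) L(s,χ̄)` -/
noncomputable def FF [NeZero N] (χ : DirichletCharacter ℂ N) (s : ℂ) : ℂ := χ.LFunction s * χ⁻¹.LFunction s

/-- the term of the sum for `FF` -/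
noncomputable def vt (χ : DirichletCharacter ℂ N) (γ σ T : ℝ) (x : Nat.Primes × ℕ) : ℂ :=
  ((2 * (χ (x.1 : ℕ) ^ (x.2 + 1)).re / ((x.2 + 1) * ((x.1 : ℕ) : ℝ) ^ (σ * (x.2 + 1))) : ℝ) : ℂ) *
    ker γ ((x.2 + 1) * Real.log (x.1 : ℕ) / T)

theorem oterm_eq_vt (χ : DirichletCharacter ℂ N) (γ σ T : ℝ) (x : Nat.Primes × ℕ) :
    oterm qP (a2 χ) σ 0 γ T x = vt χ γ σ T x := by
  unfold oterm vt Pool.Agent.U544.RC.ker
  rw [pow_re, Complex.ofReal_re, zero_mul, Real.cos_zero, mul_one]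
  rfl

theorem vt_summable (χ : DirichletCharacter ℂ N) (γ σ : ℝ) {T : ℝ} (hT : 0 < T) :
    Summable fun x => ‖vt χ γ σ T x‖ := by
  refine ((eg χ).oterm_summable σ 0 γ hT).congr fun x => ?_
  rw [oterm_eq_vt]

theorem xr_norm_le (χ : DirichletCharacter ℂ N) (p : Nat.Primes) (k : ℕ) :
    |(χ (p : ℕ) ^ k).re| ≤ 1 := by
  refine (Complex.abs_re_le_norm _).trans ?_
  rw [norm_pow]
  exact pow_le_one₀ (norm_nonneg _) (χ.norm_le_one _)

/-- the coefficients of the odd powers at least three -/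
noncomputable def co (χ : DirichletCharacter ℂ N) (x : Nat.Primes × ℕ) : ℝ :=
  (χ (x.1 : ℕ) ^ (2 * x.2 + 3)).re / √((x.1 : ℕ) : ℝ) ^ (2 * x.2 + 3) / (2 * x.2 + 3)

theorem co_bound (χ : DirichletCharacter ℂ N) (x : Nat.Primes × ℕ) :
    |(χ (x.1 : ℕ) ^ (2 * x.2 + 3)).re / √((x.1 : ℕ) : ℝ) ^ (2 * x.2 + 3)| ≤
      ((x.1 : ℕ) : ℝ) ^ (-(3 / 2) : ℝ) * (1 / 2) ^ x.2 := by
  have hp : (0 : ℝ) < ((x.1 : ℕ) : ℝ) := by exact_mod_cast x.1.2.pos
  have hs : (0 : ℝ) < √((x.1 : ℕ) : ℝ) := Real.sqrt_pos.2 hp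
  rw [abs_div, abs_of_pos (pow_pos hs _), div_eq_mul_inv]
  refine (mul_le_of_le_one_left (by positivity) (xr_norm_le χ x.1 _)).trans ?_
  have e : (√((x.1 : ℕ) : ℝ) ^ (2 * x.2 + 3))⁻¹ =
      ((x.1 : ℕ) : ℝ) ^ (-(3 / 2) : ℝ) * (((x.1 : ℕ) : ℝ) ^ (-1 : ℝ)) ^ x.2 := by
    rw [Real.sqrt_eq_rpow, ← Real.rpow_natCast, ← Real.rpow_mul hp.le, ← Real.rpow_neg hp.le,
      ← Real.rpow_natCast _ x.2, ← Real.rpow_mul hp.le, ← Real.rpow_add hp]
    congr 1
    push_cast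
    ring
  rw [e]
  gcongr
  rw [Real.rpow_neg_one, one_div]
  exact inv_anti₀ (by norm_num) (by exact_mod_cast x.1.2.two_le)

theorem co_summable (χ : DirichletCharacter ℂ N) : Summable fun x => |co χ x| := by
  have hg : Summable fun n : ℕ => (1 / 2 : ℝ) ^ n :=
    summable_geometric_of_lt_one (by norm_num) (by norm_num)
  have h3 : Summable fun p : Nat.Primes => ((p : ℕ) : ℝ) ^ (-(3 / 2) : ℝ) :=
    Nat.Primes.summable_rpow.2 (by norm_num)
  have h4 := h3.mul_of_nonneg hg (fun p => by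
    show (0 : ℝ) ≤ ((p : ℕ) : ℝ) ^ (-(3 / 2) : ℝ)
    positivity) (fun n => by positivity)
  refine Summable.of_nonneg_of_le (fun x => abs_nonneg _) (fun x => ?_) h4
  unfold co
  have h0 : (0 : ℝ) ≤ x.2 := x.2.cast_nonneg
  rw [abs_div _ (2 * (x.2 : ℝ) + 3), abs_of_pos (by positivity : (0 : ℝ) < 2 * (x.2 : ℝ) + 3)]
  refine (div_le_self (abs_nonneg _) (by linarith)).trans ?_
  exact co_bound χ x

theorem co_summable_log (χ : DirichletCharacter ℂ N) : Summable fun x => |co χ x| * lo x := by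
  have hg : Summable fun n : ℕ => (1 / 2 : ℝ) ^ n :=
    summable_geometric_of_lt_one (by norm_num) (by norm_num)
  have h3 : Summable fun p : Nat.Primes => 4 * ((p : ℕ) : ℝ) ^ (-(5 / 4) : ℝ) :=
    (Nat.Primes.summable_rpow.2 (by norm_num)).mul_left 4
  have h4 := h3.mul_of_nonneg hg (fun p => by
    show (0 : ℝ) ≤ 4 * ((p : ℕ) : ℝ) ^ (-(5 / 4) : ℝ)
    positivity) (fun n => by positivity)
  refine Summable.of_nonneg_of_le (fun x => mul_nonneg (abs_nonneg _) (lo_nonneg x)) (fun x => ?_) h4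
  have hp : (0 : ℝ) < ((x.1 : ℕ) : ℝ) := by exact_mod_cast x.1.2.pos
  have h0 : (0 : ℝ) ≤ x.2 := x.2.cast_nonneg
  set y := (χ (x.1 : ℕ) ^ (2 * x.2 + 3)).re / √((x.1 : ℕ) : ℝ) ^ (2 * x.2 + 3) with hy
  have h5 : |co χ x| * lo x = |y| * Real.log ((x.1 : ℕ) : ℝ) := by
    unfold co lo
    rw [← hy, abs_div, abs_of_pos (by positivity : (0 : ℝ) < 2 * (x.2 : ℝ) + 3)]
    field_simp
  rw [h5]
  have h6 : Real.log ((x.1 : ℕ) : ℝ) ≤ ((x.1 : ℕ) : ℝ) ^ (1 / 4 : ℝ) / (1 / 4) :=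
    Real.log_le_rpow_div hp.le (by norm_num)
  have h7 : ((x.1 : ℕ) : ℝ) ^ (-(3 / 2) : ℝ) * ((x.1 : ℕ) : ℝ) ^ (1 / 4 : ℝ) =
      ((x.1 : ℕ) : ℝ) ^ (-(5 / 4) : ℝ) := by
    rw [← Real.rpow_add hp]
    norm_num
  have h8 : 0 ≤ Real.log ((x.1 : ℕ) : ℝ) := Real.log_nonneg (by exact_mod_cast x.1.2.one_lt.le)
  calc |y| * Real.log ((x.1 : ℕ) : ℝ)
      ≤ (((x.1 : ℕ) : ℝ) ^ (-(3 / 2) : ℝ) * (1 / 2) ^ x.2) *
        (((x.1 : ℕ) : ℝ) ^ (1 / 4 : ℝ) / (1 / 4)) :=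
        mul_le_mul (co_bound χ x) h6 h8 (by positivity)
    _ = 4 * (((x.1 : ℕ) : ℝ) ^ (-(3 / 2) : ℝ) * ((x.1 : ℕ) : ℝ) ^ (1 / 4 : ℝ)) * (1 / 2) ^ x.2 := by
        ring
    _ = _ := by rw [h7]

/-- the term of the sum over the primes only -/
noncomputable def st (χ : DirichletCharacter ℂ N) (γ T : ℝ) (p : Nat.Primes) : ℂ :=
  (((χ (p : ℕ)).re / √((p : ℕ) : ℝ) : ℝ) : ℂ) * ker γ (Real.log ((p : ℕ) : ℝ) / T)

/-- the sum over the primes only at the point `1/2` -/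
noncomputable def S (χ : DirichletCharacter ℂ N) (γ T : ℝ) : ℂ := ∑' p, st χ γ T p

theorem sqrt_rpow (x : Nat.Primes × ℕ) : ((x.1 : ℕ) : ℝ) ^ ((1 / 2 : ℝ) * (x.2 + 1)) =
    √((x.1 : ℕ) : ℝ) ^ (x.2 + 1) := by
  have hp : (0 : ℝ) < ((x.1 : ℕ) : ℝ) := by exact_mod_cast x.1.2.pos
  rw [Real.sqrt_eq_rpow, ← Real.rpow_natCast, ← Real.rpow_mul hp.le]
  push_cast
  rfl

theorem vt_sq (χ : DirichletCharacter ℂ N) (x : Nat.Primes × ℕ) (γ T : ℝ) :
    vt χ γ (1 / 2) T (x.1, 2 * x.2 + 1) = 1 / 2 * vt (χ ^ 2) γ 1 (T / 2) x := by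
  have hp : (0 : ℝ) < ((x.1 : ℕ) : ℝ) := by exact_mod_cast x.1.2.pos
  have h0 : (0 : ℝ) ≤ x.2 := x.2.cast_nonneg
  have hs := sqrt_rpow (x.1, 2 * x.2 + 1)
  have e0 : ((2 * x.2 + 1 : ℕ) : ℝ) + 1 = 2 * x.2 + 2 := by push_cast; ring
  unfold vt
  simp only [e0] at hs ⊢
  rw [hs]
  have e1 : √((x.1 : ℕ) : ℝ) ^ (2 * x.2 + 1 + 1) = ((x.1 : ℕ) : ℝ) ^ ((1 : ℝ) * (x.2 + 1)) := by
    rw [show 2 * x.2 + 1 + 1 = 2 * (x.2 + 1) by ring, pow_mul, Real.sq_sqrt hp.le, one_mul,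
      ← Real.rpow_natCast]
    push_cast
    rfl
  have e2 : (χ ^ 2) ((x.1 : ℕ) : ZMod N) ^ (x.2 + 1) = χ ((x.1 : ℕ) : ZMod N) ^ (2 * x.2 + 1 + 1) := by
    rw [MulChar.pow_apply' χ two_ne_zero, ← pow_mul]
    congr 1
  rw [e1, e2]
  have e3 : (2 * (x.2 : ℝ) + 2) * Real.log ((x.1 : ℕ) : ℝ) / T =
      ((x.2 : ℝ) + 1) * Real.log ((x.1 : ℕ) : ℝ) / (T / 2) := by
    by_cases hT : T = 0
    · simp [hT]
    · field_simp
      
  rw [e3]
  have e4 : 2 * (χ ((x.1 : ℕ) : ZMod N) ^ (2 * x.2 + 1 + 1)).re /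
      ((2 * (x.2 : ℝ) + 2) * ((x.1 : ℕ) : ℝ) ^ ((1 : ℝ) * (x.2 + 1))) =
      1 / 2 * (2 * (χ ((x.1 : ℕ) : ZMod N) ^ (2 * x.2 + 1 + 1)).re /
      (((x.2 : ℝ) + 1) * ((x.1 : ℕ) : ℝ) ^ ((1 : ℝ) * (x.2 + 1)))) := by
    have h3 : (2 * (x.2 : ℝ) + 2) ≠ 0 := by positivity
    have h4 : ((x.2 : ℝ) + 1) ≠ 0 := by positivity
    have h5 : ((x.1 : ℕ) : ℝ) ^ ((1 : ℝ) * (x.2 + 1)) ≠ 0 := (Real.rpow_pos_of_pos hp _).ne'
    field_simp
  rw [e4]
  push_cast
  ring

/-- the decomposition into primes, even powers and odd powers at least three -/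
theorem decomp (χ : DirichletCharacter ℂ N) (γ : ℝ) {T : ℝ} (hT : 0 < T) :
    (Summable fun p : Nat.Primes => ‖st χ γ T p‖) ∧
    ∑' x, vt χ γ (1 / 2) T x = 1 / 2 * ∑' x, vt (χ ^ 2) γ 1 (T / 2) x + 2 * S χ γ T +
      2 * ∑' x, ((co χ x : ℝ) : ℂ) * ker γ (lo x / T) := by
  have hn := vt_summable χ γ (1 / 2) hT
  set f := vt χ γ (1 / 2) T with hf
  have hs : Summable f := hn.of_norm
  have i1 : Function.Injective fun x : Nat.Primes × ℕ => (x.1, 2 * x.2 + 1) := by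
    rintro ⟨p, a⟩ ⟨q, b⟩ h
    simp only [Prod.mk.injEq] at h
    exact Prod.ext h.1 (by simp; omega)
  have i2 : Function.Injective fun x : Nat.Primes × ℕ => (x.1, 2 * x.2 + 2) := by
    rintro ⟨p, a⟩ ⟨q, b⟩ h
    simp only [Prod.mk.injEq] at h
    exact Prod.ext h.1 (by simp; omega)
  have i3 : Function.Injective fun p : Nat.Primes => (p, 0) := by
    intro p q h
    simpa using h
  have s1 : Summable fun x : Nat.Primes × ℕ => f (x.1, 2 * x.2 + 1) := hs.comp_injective i1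
  have s2 : Summable fun x : Nat.Primes × ℕ => f (x.1, 2 * x.2 + 2) := hs.comp_injective i2
  have s3 : Summable fun p : Nat.Primes => f (p, 0) := hs.comp_injective i3
  have f3 : ∀ p : Nat.Primes, f (p, 0) = 2 * st χ γ T p := by
    intro p
    rw [hf]
    unfold vt st
    have h := sqrt_rpow (p, 0)
    simp only [Nat.cast_zero, zero_add, pow_one, mul_one, one_mul] at h ⊢
    rw [h]
    push_cast
    ring
  have f1 : ∀ x : Nat.Primes × ℕ, f (x.1, 2 * x.2 + 1) = 1 / 2 * vt (χ ^ 2) γ 1 (T / 2) x :=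
    fun x => vt_sq χ x γ T
  have f2 : ∀ x : Nat.Primes × ℕ, f (x.1, 2 * x.2 + 2) =
      2 * (((co χ x : ℝ) : ℂ) * ker γ (lo x / T)) := by
    intro x
    have h0 : (0 : ℝ) ≤ x.2 := x.2.cast_nonneg
    have hp : (0 : ℝ) < ((x.1 : ℕ) : ℝ) := by exact_mod_cast x.1.2.pos
    have hsq : (0 : ℝ) < √((x.1 : ℕ) : ℝ) := Real.sqrt_pos.2 hp
    have h := sqrt_rpow (x.1, 2 * x.2 + 2)
    have e1 : ((2 * x.2 + 2 : ℕ) : ℝ) + 1 = 2 * x.2 + 3 := by push_cast; ring
    rw [hf]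
    unfold vt co lo
    simp only [e1] at h ⊢
    rw [h, show 2 * x.2 + 2 + 1 = 2 * x.2 + 3 by ring]
    have e4 : 2 * (χ ((x.1 : ℕ) : ZMod N) ^ (2 * x.2 + 3)).re /
        ((2 * (x.2 : ℝ) + 3) * √((x.1 : ℕ) : ℝ) ^ (2 * x.2 + 3)) =
        2 * ((χ ((x.1 : ℕ) : ZMod N) ^ (2 * x.2 + 3)).re / √((x.1 : ℕ) : ℝ) ^ (2 * x.2 + 3) /
          (2 * (x.2 : ℝ) + 3)) := by
      field_simp
    rw [e4]
    push_cast
    ring
  constructor
  · refine ((hn.comp_injective i3).mul_left (1 / 2)).congr fun p => ?_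
    show 1 / 2 * ‖f (p, 0)‖ = _
    rw [f3, norm_mul, Complex.norm_ofNat]
    ring
  · have e0 : ∀ p : Nat.Primes, ∑' n, f (p, n) =
        (∑' n, f (p, 2 * n + 1)) + (f (p, 0) + ∑' n, f (p, 2 * n + 2)) := by
      intro p
      have hp : Summable fun n => f (p, n) := hs.prod_factor p
      have hev : Summable fun n => f (p, 2 * n) := hp.comp_injective (mul_right_injective₀ two_ne_zero)
      have hod : Summable fun n => f (p, 2 * n + 1) :=
        hp.comp_injective ((add_left_injective 1).comp (mul_right_injective₀ two_ne_zero))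
      rw [← tsum_even_add_odd hev hod, hev.tsum_eq_zero_add, add_comm]
      rfl
    rw [hs.tsum_prod, tsum_congr e0]
    have t1 : Summable fun p => ∑' n, f (p, 2 * n + 1) := s1.prod
    have t2 : Summable fun p => ∑' n, f (p, 2 * n + 2) := s2.prod
    rw [t1.tsum_add (s3.add t2), s3.tsum_add t2]
    have u1 : ∑' p, ∑' n, f (p, 2 * n + 1) = ∑' x : Nat.Primes × ℕ, f (x.1, 2 * x.2 + 1) :=
      s1.tsum_prod.symm
    have u2 : ∑' p, ∑' n, f (p, 2 * n + 2) = ∑' x : Nat.Primes × ℕ, f (x.1, 2 * x.2 + 2) :=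
      s2.tsum_prod.symm
    rw [u1, u2, tsum_congr f1, tsum_congr f2, tsum_congr f3, tsum_mul_left, tsum_mul_left, tsum_mul_left]
    unfold S
    ring

section L

variable [NeZero N]

theorem prod_eq (χ : DirichletCharacter ℂ N) {s : ℂ} (hs : 1 + (0 : ℝ) < s.re) :
    FF χ s = ∏' v : Nat.Primes, ∏ j, (1 - a2 χ v j * (qP v : ℂ) ^ (-s))⁻¹ := by
  have hs' : 1 < s.re := by linarith
  have h1 := (DirichletCharacter.LSeries_eulerProduct_hasProd χ hs').mul
    (DirichletCharacter.LSeries_eulerProduct_hasProd χ⁻¹ hs')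
  unfold FF
  rw [DirichletCharacter.LFunction_eq_LSeries χ hs', DirichletCharacter.LFunction_eq_LSeries χ⁻¹ hs',
    ← h1.tprod_eq]
  refine tprod_congr fun v => ?_
  rw [Fin.prod_univ_two]
  unfold a2 qP
  rw [if_pos rfl, if_neg (by norm_num)]
  push_cast
  rfl

theorem order_nat {χ : DirichletCharacter ℂ N} (h1 : χ ≠ 1) (s : ℂ) :
    (meromorphicOrderAt χ.LFunction s).untop₀ = (analyticOrderNatAt χ.LFunction s : ℤ) := by
  rw [((DirichletCharacter.differentiable_LFunction h1).analyticAt s).meromorphicOrderAt_eq]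
  unfold analyticOrderNatAt
  rcases h : analyticOrderAt χ.LFunction s with _ | n
  · rfl
  · rfl

omit [NeZero N] in
theorem inv_ne {χ : DirichletCharacter ℂ N} (h1 : χ ≠ 1) : χ⁻¹ ≠ 1 := inv_ne_one.2 h1

theorem mero {χ : DirichletCharacter ℂ N} (h1 : χ ≠ 1) (s : ℂ) : MeromorphicAt χ.LFunction s :=
  ((DirichletCharacter.differentiable_LFunction h1).analyticAt s).meromorphicAt

theorem ne_top {χ : DirichletCharacter ℂ N} (h1 : χ ≠ 1) (z : ℂ) :
    meromorphicOrderAt χ.LFunction z ≠ ⊤ := by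
  have hm : MeromorphicOn χ.LFunction univ := fun s _ => mero h1 s
  refine hm.meromorphicOrderAt_ne_top_of_isPreconnected isPreconnected_univ
      (mem_univ (2 : ℂ)) (mem_univ z) ?_
  have h3 : meromorphicOrderAt χ.LFunction 2 = 0 := (Pool.Agent.U745.RZ.order_chi h1 2).2
    (DirichletCharacter.LFunction_ne_zero_of_one_le_re χ (Or.inl h1) (by norm_num))
  rw [h3]
  exact WithTop.zero_ne_top

/-- the conjugate character has the same order at real points -/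
theorem inv_order {χ : DirichletCharacter ℂ N} (h1 : χ ≠ 1) {x : ℝ} (hx : x ≠ 1) :
    meromorphicOrderAt χ⁻¹.LFunction (x : ℂ) = meromorphicOrderAt χ.LFunction (x : ℂ) := by
  obtain ⟨n, hn⟩ := WithTop.ne_top_iff_exists.1 (ne_top h1 (x : ℂ))
  have hn := hn.symm
  have hl0 := (mero h1 (x : ℂ)).meromorphicTrailingCoeffAt_ne_zero (ne_top h1 (x : ℂ))
  have k1 := lim_of_order (mero h1 (x : ℂ)) hn rfl
  rw [hn]
  refine (order_of_lim (mero (inv_ne h1) (x : ℂ))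
    (B := conj (meromorphicTrailingCoeffAt χ.LFunction (x : ℂ))) (by simpa using hl0) ?_).1
  have h2 : Tendsto (fun s : ℂ => conj s) (𝓝[≠] (x : ℂ)) (𝓝[≠] (x : ℂ)) := by
    rw [tendsto_nhdsWithin_iff]
    constructor
    · have := (Complex.continuous_conj.tendsto (x : ℂ))
      rw [Complex.conj_ofReal] at this
      exact this.mono_left nhdsWithin_le_nhds
    · filter_upwards [self_mem_nhdsWithin] with w hw
      intro h3
      apply hw
      rw [mem_singleton_iff] at h3 ⊢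
      have h4 := congrArg conj h3
      simpa using h4
  have h3 := (Complex.continuous_conj.tendsto _).comp (k1.comp h2)
  refine h3.congr' ?_
  have ho : ∀ᶠ s : ℂ in 𝓝[≠] (x : ℂ), s ≠ 1 := by
    have : ∀ᶠ s : ℂ in 𝓝 (x : ℂ), s ≠ 1 := isOpen_ne.mem_nhds (show (x : ℂ) ≠ 1 by exact_mod_cast hx)
    exact this.filter_mono nhdsWithin_le_nhds
  filter_upwards [ho] with s hs
  simp only [Function.comp_apply, map_mul, map_zpow₀, map_sub, Complex.conj_conj, Complex.conj_ofReal]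
  have h5 := H370.DL.LFunction_conj χ (conj s) (by
    intro h6
    apply hs
    have := congrArg conj h6
    simpa using this)
  rw [Complex.conj_conj] at h5
  rw [h5]

/-- the number of the zeros in `(1/2,1)` with multiplicity -/
noncomputable def Z (χ : DirichletCharacter ℂ N) : ℕ :=
  ∑ᶠ x ∈ Ioo (1 / 2 : ℝ) 1, analyticOrderNatAt χ.LFunction (x : ℂ)

theorem mero_FF {χ : DirichletCharacter ℂ N} (h1 : χ ≠ 1) (s : ℂ) : MeromorphicAt (FF χ) s :=
  (mero h1 s).mul (mero (inv_ne h1) s)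

theorem order_FF {χ : DirichletCharacter ℂ N} (h1 : χ ≠ 1) {x : ℝ} (hx : x < 1) :
    meromorphicOrderAt (FF χ) (x : ℂ) = ((2 * (analyticOrderNatAt χ.LFunction (x : ℂ) : ℤ) : ℤ) :
      WithTop ℤ) := by
  have e : FF χ = χ.LFunction * χ⁻¹.LFunction := rfl
  rw [e, meromorphicOrderAt_mul (mero h1 _) (mero (inv_ne h1) _), inv_order h1 hx.ne]
  obtain ⟨n, hn⟩ := WithTop.ne_top_iff_exists.1 (ne_top h1 (x : ℂ))
  have h3 := order_nat h1 (x : ℂ)
  rw [← hn] at h3 ⊢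
  have h4 : n = (analyticOrderNatAt χ.LFunction (x : ℂ) : ℤ) := h3
  rw [← h4, ← WithTop.coe_add, two_mul]

theorem order_FF_one {χ : DirichletCharacter ℂ N} (h1 : χ ≠ 1) {x : ℝ} (hx : 1 ≤ x) :
    meromorphicOrderAt (FF χ) (x : ℂ) = 0 := by
  have e : FF χ = χ.LFunction * χ⁻¹.LFunction := rfl
  have h3 : ∀ {ψ : DirichletCharacter ℂ N}, ψ ≠ 1 → meromorphicOrderAt ψ.LFunction (x : ℂ) = 0 :=
    fun h => (Pool.Agent.U745.RZ.order_chi h _).2
      (DirichletCharacter.LFunction_ne_zero_of_one_le_re _ (Or.inl h) (by simpa using hx))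
  rw [e, meromorphicOrderAt_mul (mero h1 _) (mero (inv_ne h1) _), h3 h1, h3 (inv_ne h1), add_zero]

theorem ray_half {χ : DirichletCharacter ℂ N} (h1 : χ ≠ 1) : rayN (FF χ) (1 / 2) 0 = 2 * (Z χ : ℤ) := by
  have hD := (eg χ).ds (F := FF χ) (mero_FF h1) (fun _ hs => prod_eq χ hs)
  have hf := hD.fin (1 / 2) 0
  have e : ∀ x : ℝ, x < 1 → (meromorphicOrderAt (FF χ) (x + (0 : ℝ) * Complex.I)).untop₀ =
      2 * (analyticOrderNatAt χ.LFunction (x : ℂ) : ℤ) := by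
    intro x hx
    rw [Complex.ofReal_zero, zero_mul, add_zero, order_FF h1 hx]
    rfl
  have e' : ∀ x : ℝ, 1 ≤ x → (meromorphicOrderAt (FF χ) (x + (0 : ℝ) * Complex.I)).untop₀ = 0 := by
    intro x hx
    rw [Complex.ofReal_zero, zero_mul, add_zero, order_FF_one h1 hx]
    rfl
  have hf2 : (Ioo (1 / 2 : ℝ) 1 ∩ Function.support
      fun x : ℝ => analyticOrderNatAt χ.LFunction (x : ℂ)).Finite := by
    refine hf.subset ?_
    rintro x ⟨hx, hx2⟩
    refine ⟨hx.1, ?_⟩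
    rw [Function.mem_support] at hx2 ⊢
    rw [e x hx.2]
    positivity
  unfold rayN Z
  rw [finsum_mem_eq_sum _ hf, finsum_mem_eq_sum _ hf2, Nat.cast_sum, Finset.mul_sum]
  have hset : hf.toFinset = hf2.toFinset := by
    ext x
    rw [Set.Finite.mem_toFinset, Set.Finite.mem_toFinset, mem_inter_iff, mem_inter_iff,
      Function.mem_support, Function.mem_support]
    constructor
    · rintro ⟨h3, h4⟩
      have h5 : x < 1 := by
        by_contra hcon
        push Not at hcon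
        exact h4 (e' x hcon)
      rw [e x h5] at h4
      refine ⟨⟨h3, h5⟩, ?_⟩
      intro h6
      apply h4
      rw [h6]
      simp
    · rintro ⟨h3, h4⟩
      refine ⟨h3.1, ?_⟩
      rw [e x h3.2]
      positivity
  rw [hset]
  refine Finset.sum_congr rfl fun x hx => ?_
  rw [Set.Finite.mem_toFinset] at hx
  exact e x hx.1.2

/-- the order at `1/2` -/
noncomputable def m (χ : DirichletCharacter ℂ N) : ℕ := analyticOrderNatAt χ.LFunction (1 / 2 : ℂ)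

theorem law_half {χ : DirichletCharacter ℂ N} (h1 : χ ≠ 1) {γ : ℝ} (hγ : Real.pi / 2 < γ) :
    ∃ c : ℝ, (fun T : ℝ => ∑' x, vt χ γ (1 / 2) T x - (-(2 * m χ) * (Real.log T - Lam γ) + c -
      Real.pi * (2 * Z χ) * Complex.I)) =O[atTop] (fun T : ℝ => 1 / T) := by
  obtain ⟨n, l, k1, k2, -, k4⟩ := (eg χ).off (F := FF χ) (mero_FF h1) (fun _ hs => prod_eq χ hs)
    (1 / 2) 0 hγ
  have e0 : (((1 / 2 : ℝ) : ℂ) + ((0 : ℝ) : ℂ) * Complex.I) = ((1 / 2 : ℝ) : ℂ) := by simp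
  rw [e0, order_FF h1 (by norm_num)] at k1
  have hn : n = 2 * (m χ : ℤ) := by
    have h3 : (2 * (analyticOrderNatAt χ.LFunction ((1 / 2 : ℝ) : ℂ) : ℤ) : ℤ) = n := by
      exact_mod_cast k1
    rw [← h3]
    unfold m
    push_cast
    rfl
  refine ⟨Real.log ‖l‖, k4.congr_left fun T => ?_⟩
  have h11 : (∑' x, oterm qP (a2 χ) (1 / 2) 0 γ T x) = ∑' x, vt χ γ (1 / 2) T x :=
    tsum_congr fun x => oterm_eq_vt χ γ (1 / 2) T x
  rw [h11, hn, ray_half h1]
  push_cast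
  ring

theorem law_at_one {χ : DirichletCharacter ℂ N} (h1 : χ ≠ 1) {γ : ℝ} (hγ : Real.pi / 2 < γ) :
    ∃ c : ℝ, (fun T : ℝ => ∑' x, vt χ γ 1 T x - (c : ℂ)) =O[atTop] (fun T : ℝ => 1 / T) := by
  obtain ⟨n, l, k1, k2, -, k4⟩ := (eg χ).off (F := FF χ) (mero_FF h1) (fun _ hs => prod_eq χ hs)
    1 0 hγ
  have e0 : (((1 : ℝ) : ℂ) + ((0 : ℝ) : ℂ) * Complex.I) = ((1 : ℝ) : ℂ) := by simp
  rw [e0, order_FF_one h1 le_rfl] at k1
  have hn : n = 0 := by exact_mod_cast k1.symm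
  have hr : rayN (FF χ) 1 0 = 0 := by
    unfold rayN
    refine finsum_mem_eq_zero_of_forall_eq_zero fun x hx => ?_
    have hx' : 1 < x := hx
    rw [Complex.ofReal_zero, zero_mul, add_zero, order_FF_one h1 hx'.le]
    rfl
  refine ⟨Real.log ‖l‖, k4.congr_left fun T => ?_⟩
  have h11 : (∑' x, oterm qP (a2 χ) 1 0 γ T x) = ∑' x, vt χ γ 1 T x :=
    tsum_congr fun x => oterm_eq_vt χ γ 1 T x
  rw [h11, hn, hr]
  push_cast
  ring

theorem law_triv {γ : ℝ} (hγ : Real.pi / 2 < γ) :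
    (fun T : ℝ => ∑' x, vt (1 : DirichletCharacter ℂ N) γ 1 T x - (2 * (Real.log T - Lam γ) +
      (2 * Real.log (res N) : ℝ))) =O[atTop] (fun T : ℝ => 1 / T) := by
  refine ((law_one (N := N) hγ).const_mul_left 2).congr_left fun T => ?_
  have h : ∑' x, vt (1 : DirichletCharacter ℂ N) γ 1 T x =
      2 * Pool.Agent.U544.RC.V (1 : DirichletCharacter ℂ N) γ 1 T := by
    unfold Pool.Agent.U544.RC.V
    rw [← tsum_mul_left]
    refine tsum_congr fun x => ?_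
    unfold vt vterm
    have hre : ((1 : DirichletCharacter ℂ N) (x.1 : ℕ) ^ (x.2 + 1)).re =
        ((1 : DirichletCharacter ℂ N) (x.1 : ℕ)).re ^ (x.2 + 1) := by
      have h3 := (Pool.Agent.U745.RZ.chi_real (χ := (1 : DirichletCharacter ℂ N)) (one_pow 2) (x.1 : ℕ)).1
      rw [h3, ← Complex.ofReal_pow, Complex.ofReal_re, Complex.ofReal_re]
    rw [hre]
    push_cast
    ring
  rw [h]
  push_cast
  ring

open Classical in
/-- the Frobenius-Schur indicator of a character of a commutative group -/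
noncomputable def fs (χ : DirichletCharacter ℂ N) : ℕ := if χ ^ 2 = 1 then 1 else 0

/-- **The law with primes only.** -/
theorem law_primes {χ : DirichletCharacter ℂ N} (h1 : χ ≠ 1) {γ : ℝ} (hγ : Real.pi / 2 < γ) :
    ∃ c : ℝ, (fun T : ℝ => S χ γ T - (-(m χ + fs χ / 2) * (Real.log T - Lam γ) + c -
      Real.pi * Z χ * Complex.I)) =O[atTop] (fun T : ℝ => 1 / T) := by
  obtain ⟨c1, k1⟩ := law_half h1 hγ
  obtain ⟨C, hC0, hC⟩ := err lo_nonneg (co_summable χ) (co_summable_log χ) γ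
  have k4 : (fun T : ℝ => ∑' x, ((co χ x : ℝ) : ℂ) * ker γ (lo x / T) -
      ((∑' x, co χ x : ℝ) : ℂ)) =O[atTop] (fun T : ℝ => 1 / T) := by
    refine Asymptotics.IsBigO.of_bound C ?_
    filter_upwards [eventually_gt_atTop 0] with T hT
    have := (hC T hT).2
    rw [norm_div, norm_one, Real.norm_eq_abs, abs_of_pos hT, mul_one_div]
    exact this
  have half : ∀ {g : ℝ → ℂ}, g =O[atTop] (fun T : ℝ => 1 / T) →
      (fun T => g (T / 2)) =O[atTop] (fun T : ℝ => 1 / T) := by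
    intro g hg
    have h3 : Tendsto (fun T : ℝ => T / 2) atTop atTop := tendsto_id.atTop_div_const (by norm_num)
    refine (hg.comp_tendsto h3).trans ?_
    refine Asymptotics.IsBigO.of_bound 2 ?_
    filter_upwards [eventually_gt_atTop 0] with T hT
    simp only [Function.comp_apply]
    rw [Real.norm_eq_abs, Real.norm_eq_abs, abs_of_pos (by positivity), abs_of_pos (by positivity)]
    apply le_of_eq
    field_simp
  by_cases hsq : χ ^ 2 = 1
  · have hfs : fs χ = 1 := by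
      unfold fs
      rw [if_pos hsq]
    have k3 := half (law_triv (N := N) hγ)
    refine ⟨c1 / 2 + (Real.log 2 - Real.log (res N)) / 2 - ∑' x, co χ x, ?_⟩
    have k5 := ((k1.const_mul_left (1 / 2)).sub (k3.const_mul_left (1 / 4))).sub k4
    refine k5.congr' ?_ EventuallyEq.rfl
    filter_upwards [eventually_gt_atTop 0] with T hT
    have k6 := (decomp χ γ hT).2
    have k7 : Real.log (T / 2) = Real.log T - Real.log 2 := Real.log_div hT.ne' two_ne_zero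
    rw [k6, k7, hsq, hfs]
    push_cast
    ring
  · have hfs : fs χ = 0 := by
      unfold fs
      rw [if_neg hsq]
    obtain ⟨c2, k2⟩ := law_at_one hsq hγ
    have k3 := half k2
    refine ⟨c1 / 2 - c2 / 4 - ∑' x, co χ x, ?_⟩
    have k5 := ((k1.const_mul_left (1 / 2)).sub (k3.const_mul_left (1 / 4))).sub k4
    refine k5.congr' ?_ EventuallyEq.rfl
    filter_upwards [eventually_gt_atTop 0] with T hT
    have k6 := (decomp χ γ hT).2
    rw [k6, hfs]
    push_cast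
    ring

end L

end Pool.Agent.U544.CB
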