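import Pool.Agent.U544.CB.Law

/-!
# The smoothed prime race
-/

set_option autoImplicit false

namespace Pool.Agent.U544.CB

open Filter Topology Set ComplexConjugate
open Pool.Agent.W187.UR (Lam cmean)
open Pool.Agent.N41.RM
open Pool.Agent.U544.RC (err qP lo lo_nonneg law_one vterm mero_one)
open Pool.Agent.U745.RZ (res)

open Classical

variable {N : ℕ} [NeZero N]

/-- the weight of the prime `p` in the race of the class `a` -/
noncomputable def wa (a : (ZMod N)ˣ) (p : ℕ) : ℝ :=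
  ((if (p : ZMod N) = a then 1 else 0) + (if (p : ZMod N) = ((a⁻¹ : (ZMod N)ˣ) : ZMod N) then 1 else 0)) / 2 -
    (if IsUnit (p : ZMod N) then 1 else 0) / (N.totient : ℝ)

theorem re_mul (z w : ℂ) : z.re * w.re = ((z * w).re + (conj z * w).re) / 2 := by
  simp

theorem char_inv (χ : DirichletCharacter ℂ N) (a : (ZMod N)ˣ) :
    χ (a : ZMod N)⁻¹ = conj (χ a) := by
  rw [← inv_app, MulChar.inv_apply, Ring.inverse_unit, ZMod.inv_coe_unit]

theorem tot_ne : (N.totient : ℝ) ≠ 0 := by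
  have : 0 < N.totient := Nat.totient_pos.2 (NeZero.pos N)
  exact_mod_cast this.ne'

theorem sum_all (a : (ZMod N)ˣ) (b : ZMod N) :
    ∑ χ : DirichletCharacter ℂ N, (χ a).re * (χ b).re = (N.totient : ℝ) *
      (((if b = a then 1 else 0) + (if b = ((a⁻¹ : (ZMod N)ˣ) : ZMod N) then 1 else 0)) / 2) := by
  have h1 := DirichletCharacter.sum_char_inv_mul_char_eq ℂ (n := N) a.isUnit b
  have h2 := DirichletCharacter.sum_char_inv_mul_char_eq ℂ (n := N) (a⁻¹).isUnit b
  have e1 : ∀ χ : DirichletCharacter ℂ N, conj (χ a) = χ (a : ZMod N)⁻¹ := fun χ =>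
    (char_inv χ a).symm
  have e2 : ∀ χ : DirichletCharacter ℂ N, χ a = χ ((a⁻¹ : (ZMod N)ˣ) : ZMod N)⁻¹ := by
    intro χ
    rw [ZMod.inv_coe_unit, inv_inv]
  have e3 : ∀ χ : DirichletCharacter ℂ N, (χ a).re * (χ b).re =
      ((χ ((a⁻¹ : (ZMod N)ˣ) : ZMod N)⁻¹ * χ b).re + (χ (a : ZMod N)⁻¹ * χ b).re) / 2 := by
    intro χ
    rw [re_mul, ← e1, ← e2]
  rw [Finset.sum_congr rfl fun χ _ => e3 χ, ← Finset.sum_div, Finset.sum_add_distrib,
    ← Complex.re_sum, ← Complex.re_sum, h1, h2]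
  have e4 : ∀ P : Prop, [Decidable P] → (if P then ((N.totient : ℕ) : ℂ) else 0).re =
      (N.totient : ℝ) * (if P then 1 else 0) := by
    intro P _
    split_ifs <;> simp
  rw [e4, e4]
  have e5 : (((a⁻¹ : (ZMod N)ˣ) : ZMod N) = b) = (b = ((a⁻¹ : (ZMod N)ˣ) : ZMod N)) := propext eq_comm
  have e6 : ((a : ZMod N) = b) = (b = (a : ZMod N)) := propext eq_comm
  simp only [e5, e6]
  ring

theorem wa_eq (a : (ZMod N)ˣ) (p : ℕ) : wa a p = (1 / (N.totient : ℝ)) *
    ∑ χ ∈ (Finset.univ : Finset (DirichletCharacter ℂ N)).erase 1, (χ a).re * (χ (p : ZMod N)).re := by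
  have h1 := sum_all a (p : ZMod N)
  rw [← Finset.add_sum_erase _ _ (Finset.mem_univ (1 : DirichletCharacter ℂ N))] at h1
  have h2 : ((1 : DirichletCharacter ℂ N) a).re = 1 := by
    rw [MulChar.one_apply a.isUnit]
    simp
  have h3 : ((1 : DirichletCharacter ℂ N) (p : ZMod N)).re = if IsUnit (p : ZMod N) then 1 else 0 := by
    split_ifs with h
    · rw [MulChar.one_apply h]; simp
    · rw [MulChar.map_nonunit _ h]; simp
  rw [h2, h3, one_mul] at h1
  have h4 := eq_sub_of_add_eq' h1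
  rw [h4]
  unfold wa
  have := tot_ne (N := N)
  field_simp

/-- the term of the race of the class `a` -/
noncomputable def dt (a : (ZMod N)ˣ) (γ T : ℝ) (p : Nat.Primes) : ℂ :=
  ((wa a p / √((p : ℕ) : ℝ) : ℝ) : ℂ) * Pool.Agent.U544.RC.ker γ (Real.log ((p : ℕ) : ℝ) / T)

/-- the race of the class `a` -/
noncomputable def D (a : (ZMod N)ˣ) (γ T : ℝ) : ℂ := ∑' p, dt a γ T p

theorem dt_eq (a : (ZMod N)ˣ) (γ T : ℝ) (p : Nat.Primes) : dt a γ T p =
    (1 / (N.totient : ℂ)) * ∑ χ ∈ (Finset.univ : Finset (DirichletCharacter ℂ N)).erase 1,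
      ((χ a).re : ℂ) * st χ γ T p := by
  unfold dt st
  rw [wa_eq, Finset.mul_sum, Finset.sum_div, Finset.mul_sum]
  push_cast
  rw [Finset.sum_mul]
  refine Finset.sum_congr rfl fun χ _ => ?_
  ring

theorem dt_summable (a : (ZMod N)ˣ) (γ : ℝ) {T : ℝ} (hT : 0 < T) : Summable fun p => ‖dt a γ T p‖ := by
  have h : Summable fun p => (1 / (N.totient : ℝ)) *
      ∑ χ ∈ (Finset.univ : Finset (DirichletCharacter ℂ N)).erase 1, ‖((χ a).re : ℂ) * st χ γ T p‖ := by
    refine Summable.mul_left _ (summable_sum fun χ _ => ?_)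
    simp only [norm_mul]
    exact ((decomp χ γ hT).1).mul_left _
  refine Summable.of_nonneg_of_le (fun p => norm_nonneg _) (fun p => ?_) h
  rw [dt_eq, norm_mul, norm_div, norm_one, Complex.norm_natCast]
  gcongr
  exact norm_sum_le _ _

theorem D_eq (a : (ZMod N)ˣ) (γ : ℝ) {T : ℝ} (hT : 0 < T) : D a γ T =
    (1 / (N.totient : ℂ)) * ∑ χ ∈ (Finset.univ : Finset (DirichletCharacter ℂ N)).erase 1,
      ((χ a).re : ℂ) * S χ γ T := by
  unfold D
  rw [tsum_congr (dt_eq a γ T), tsum_mul_left]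
  congr 1
  rw [Summable.tsum_finsetSum]
  · refine Finset.sum_congr rfl fun χ _ => ?_
    unfold S
    rw [tsum_mul_left]
  · intro χ _
    exact ((decomp χ γ hT).1.of_norm).mul_left _

/-- the number of the square roots of `a` -/
noncomputable def roots (a : (ZMod N)ˣ) : ℕ :=
  (Finset.univ.filter fun b : ZMod N => b ^ 2 = (a : ZMod N)).card

theorem fs_sum (χ : DirichletCharacter ℂ N) :
    ∑ b : ZMod N, χ b ^ 2 = (N.totient : ℂ) * (fs χ : ℂ) := by
  have e : ∀ b : ZMod N, χ b ^ 2 = (χ ^ 2) b := fun b => (MulChar.pow_apply' χ two_ne_zero b).symm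
  rw [Finset.sum_congr rfl fun b _ => e b]
  by_cases h : χ ^ 2 = 1
  · have hfs : fs χ = 1 := by
      unfold fs
      rw [if_pos h]
    have h3 := (DirichletCharacter.sum_characters_eq ℂ (n := N) 1)
    rw [h, hfs, Nat.cast_one, mul_one, MulChar.sum_one_eq_card_units, ZMod.card_units_eq_totient]
  · have hfs : fs χ = 0 := by
      unfold fs
      rw [if_neg h]
    rw [hfs, Nat.cast_zero, mul_zero]
    exact MulChar.sum_eq_zero_of_ne_one h

theorem fs_all (a : (ZMod N)ˣ) : ∑ χ : DirichletCharacter ℂ N, (χ a).re * (fs χ : ℝ) = (roots a : ℝ) := by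
  have h1 : ∀ b : ZMod N, ∑ χ : DirichletCharacter ℂ N, χ (a : ZMod N)⁻¹ * χ (b ^ 2) =
      if (a : ZMod N) = b ^ 2 then ((N.totient : ℕ) : ℂ) else 0 :=
    fun b => DirichletCharacter.sum_char_inv_mul_char_eq ℂ (n := N) a.isUnit (b ^ 2)
  have h2 : ∑ χ : DirichletCharacter ℂ N, χ (a : ZMod N)⁻¹ * ((N.totient : ℂ) * (fs χ : ℂ)) =
      (N.totient : ℂ) * (roots a : ℂ) := by
    have h3 : ∀ χ : DirichletCharacter ℂ N, χ (a : ZMod N)⁻¹ * ((N.totient : ℂ) * (fs χ : ℂ)) =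
        ∑ b : ZMod N, χ (a : ZMod N)⁻¹ * χ (b ^ 2) := by
      intro χ
      rw [← fs_sum, Finset.mul_sum]
      refine Finset.sum_congr rfl fun b _ => ?_
      rw [map_pow]
    rw [Finset.sum_congr rfl fun χ _ => h3 χ, Finset.sum_comm, Finset.sum_congr rfl fun b _ => h1 b]
    unfold roots
    rw [Finset.card_filter]
    push_cast
    rw [Finset.mul_sum]
    refine Finset.sum_congr rfl fun b _ => ?_
    by_cases hb : b ^ 2 = (a : ZMod N)
    · rw [if_pos hb, if_pos hb.symm, mul_one]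
    · rw [if_neg hb, if_neg (fun h => hb h.symm), mul_zero]
  have hφ : (N.totient : ℂ) ≠ 0 := by
    have := tot_ne (N := N)
    exact_mod_cast this
  have h4 : ∑ χ : DirichletCharacter ℂ N, χ (a : ZMod N)⁻¹ * (fs χ : ℂ) = (roots a : ℂ) := by
    apply mul_left_cancel₀ hφ
    rw [← h2, Finset.mul_sum]
    refine Finset.sum_congr rfl fun χ _ => ?_
    ring
  have h5 := congrArg Complex.re h4
  rw [Complex.re_sum, Complex.natCast_re] at h5
  rw [← h5]
  refine Finset.sum_congr rfl fun χ _ => ?_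
  rw [char_inv]
  simp

theorem fs_erase (a : (ZMod N)ˣ) :
    ∑ χ ∈ (Finset.univ : Finset (DirichletCharacter ℂ N)).erase 1, (χ a).re * (fs χ : ℝ) =
      (roots a : ℝ) - 1 := by
  have h1 := fs_all a
  rw [← Finset.add_sum_erase _ _ (Finset.mem_univ (1 : DirichletCharacter ℂ N))] at h1
  have h2 : ((1 : DirichletCharacter ℂ N) a).re = 1 := by
    rw [MulChar.one_apply a.isUnit]
    simp
  have h3 : fs (1 : DirichletCharacter ℂ N) = 1 := by
    unfold fs
    rw [if_pos (one_pow 2)]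
  rw [h2, h3, Nat.cast_one, mul_one] at h1
  linarith

/-- the sum of the orders at `1/2` -/
noncomputable def M (a : (ZMod N)ˣ) : ℝ :=
  ∑ χ ∈ (Finset.univ : Finset (DirichletCharacter ℂ N)).erase 1, (χ a).re * (m χ : ℝ)

/-- the sum of the numbers of real zeros -/
noncomputable def Y (a : (ZMod N)ˣ) : ℝ :=
  ∑ χ ∈ (Finset.univ : Finset (DirichletCharacter ℂ N)).erase 1, (χ a).re * (Z χ : ℝ)

/-- **The law of the race.** -/
theorem race (a : (ZMod N)ˣ) {γ : ℝ} (hγ : Real.pi / 2 < γ) :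
    ∃ c : ℝ, (fun T : ℝ => D a γ T - (-((M a + ((roots a : ℝ) - 1) / 2) / (N.totient : ℝ) : ℝ) *
      (Real.log T - Lam γ) + c - Real.pi * (Y a / (N.totient : ℝ) : ℝ) * Complex.I)) =O[atTop]
        (fun T : ℝ => 1 / T) := by
  have hc : ∀ χ : DirichletCharacter ℂ N, ∃ c : ℝ, χ ≠ 1 → (fun T : ℝ => S χ γ T -
      (-(m χ + fs χ / 2) * (Real.log T - Lam γ) + c - Real.pi * Z χ * Complex.I)) =O[atTop]
        (fun T : ℝ => 1 / T) := by
    intro χ
    by_cases h : χ = 1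
    · exact ⟨0, fun h' => absurd h h'⟩
    · obtain ⟨c, hc⟩ := law_primes h hγ
      exact ⟨c, fun _ => hc⟩
  choose c hc using hc
  set s := (Finset.univ : Finset (DirichletCharacter ℂ N)).erase 1 with hs
  have h1 : (fun T : ℝ => ∑ χ ∈ s, ((χ a).re : ℂ) * (S χ γ T -
      (-(m χ + fs χ / 2) * (Real.log T - Lam γ) + c χ - Real.pi * Z χ * Complex.I))) =O[atTop]
        (fun T : ℝ => 1 / T) :=
    Asymptotics.IsBigO.fun_sum fun χ hχ => (hc χ (Finset.ne_of_mem_erase hχ)).const_mul_left _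
  refine ⟨(∑ χ ∈ s, (χ a).re * c χ) / (N.totient : ℝ), ?_⟩
  refine (h1.const_mul_left (1 / (N.totient : ℂ))).congr' ?_ EventuallyEq.rfl
  filter_upwards [eventually_gt_atTop 0] with T hT
  rw [D_eq a γ hT, ← hs]
  have hq : (roots a : ℝ) - 1 = ∑ χ ∈ s, (χ a).re * (fs χ : ℝ) := (fs_erase a).symm
  have hφ : (N.totient : ℂ) ≠ 0 := by
    have := tot_ne (N := N)
    exact_mod_cast this
  rw [hq]
  unfold M Y
  rw [← hs]
  have e : ∀ χ ∈ s, ((χ a).re : ℂ) * (S χ γ T -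
      (-(m χ + fs χ / 2) * (Real.log T - Lam γ) + c χ - Real.pi * Z χ * Complex.I)) =
      ((χ a).re : ℂ) * S χ γ T + (((χ a).re : ℂ) * (m χ : ℂ)) * (Real.log T - Lam γ) +
      (((χ a).re : ℂ) * (fs χ : ℂ)) * ((Real.log T - Lam γ) / 2) - ((χ a).re : ℂ) * c χ +
      (((χ a).re : ℂ) * (Z χ : ℂ)) * (Real.pi * Complex.I) := by
    intro χ _
    ring
  rw [Finset.sum_congr rfl e, Finset.sum_add_distrib, Finset.sum_sub_distrib, Finset.sum_add_distrib,
    Finset.sum_add_distrib, ← Finset.sum_mul, ← Finset.sum_mul, ← Finset.sum_mul]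
  push_cast
  field_simp
  ring

theorem M_one_nonneg : 0 ≤ M (1 : (ZMod N)ˣ) := by
  unfold M
  refine Finset.sum_nonneg fun χ _ => ?_
  rw [Units.val_one, map_one, Complex.one_re, one_mul]
  positivity

theorem M_one_cases : (∀ χ : DirichletCharacter ℂ N, χ ≠ 1 → m χ = 0) ∨ 1 ≤ M (1 : (ZMod N)ˣ) := by
  by_cases h : ∀ χ : DirichletCharacter ℂ N, χ ≠ 1 → m χ = 0
  · exact Or.inl h
  · right
    push Not at h
    obtain ⟨χ, h1, h2⟩ := h
    unfold M
    have h3 : (1 : ℝ) ≤ (χ ((1 : (ZMod N)ˣ) : ZMod N)).re * (m χ : ℝ) := by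
      rw [Units.val_one, map_one, Complex.one_re, one_mul]
      exact_mod_cast Nat.one_le_iff_ne_zero.2 h2
    refine h3.trans (Finset.single_le_sum (f := fun χ : DirichletCharacter ℂ N =>
      (χ ((1 : (ZMod N)ˣ) : ZMod N)).re * (m χ : ℝ)) (fun ψ _ => ?_)
      (Finset.mem_erase.2 ⟨h1, Finset.mem_univ χ⟩))
    rw [Units.val_one, map_one, Complex.one_re, one_mul]
    positivity

theorem Y_one_cases : (∀ χ : DirichletCharacter ℂ N, χ ≠ 1 → Z χ = 0) ∨ 1 ≤ Y (1 : (ZMod N)ˣ) := by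
  by_cases h : ∀ χ : DirichletCharacter ℂ N, χ ≠ 1 → Z χ = 0
  · exact Or.inl h
  · right
    push Not at h
    obtain ⟨χ, h1, h2⟩ := h
    unfold Y
    have h3 : (1 : ℝ) ≤ (χ ((1 : (ZMod N)ˣ) : ZMod N)).re * (Z χ : ℝ) := by
      rw [Units.val_one, map_one, Complex.one_re, one_mul]
      exact_mod_cast Nat.one_le_iff_ne_zero.2 h2
    refine h3.trans (Finset.single_le_sum (f := fun χ : DirichletCharacter ℂ N =>
      (χ ((1 : (ZMod N)ˣ) : ZMod N)).re * (Z χ : ℝ)) (fun ψ _ => ?_)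
      (Finset.mem_erase.2 ⟨h1, Finset.mem_univ χ⟩))
    rw [Units.val_one, map_one, Complex.one_re, one_mul]
    positivity

end Pool.Agent.U544.CB
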